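import Pool.Agent.Helper51.PP.Spec

/-!
# Swarm PC (MP_b460e8_pr), part HBC: Hopf's inequality and Borel-Cantelli
-/

set_option autoImplicit false
set_option linter.unusedSectionVars false

namespace Pool.Agent.Helper67.PC.HBC

open MeasureTheory ProbabilityTheory Filter Topology
open scoped ENNReal BigOperators
open Pool.Agent.Helper51.PP

theorem main (hH : S_HOPF) : S_HBC := by
  intro Ω E _ _ _ μ _ T rev hT
  refine ⟨?_, ?_⟩
  · intro g hg hgi hg0
    set I : ℝ := ∫ ω, g ω ∂μ with hI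
    have hI0 : 0 ≤ I := integral_nonneg hg0
    have hnull : μ {ω | ∀ K : ℕ, ∃ n : ℕ, ((K : ℝ) + 1) * n < SR T g n ω} = 0 := by
      have hle : ∀ K : ℕ, μ {ω | ∀ K : ℕ, ∃ n : ℕ, ((K : ℝ) + 1) * n < SR T g n ω} ≤
          ENNReal.ofReal (I / ((K : ℝ) + 1)) := by
        intro K
        refine (measure_mono ?_).trans (hH μ T rev hT g hg hgi hg0 ((K : ℝ) + 1) (by positivity))
        intro ω hω
        exact hω K
      have hlim : Tendsto (fun K : ℕ => ENNReal.ofReal (I / ((K : ℝ) + 1))) atTop (𝓝 0) := by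
        have h1 : Tendsto (fun K : ℕ => I / ((K : ℝ) + 1)) atTop (𝓝 0) := by
          have := (tendsto_one_div_add_atTop_nhds_zero_nat (𝕜 := ℝ)).const_mul I
          simpa [div_eq_mul_inv] using this
        have h2 := (ENNReal.continuous_ofReal.tendsto 0).comp h1
        rw [ENNReal.ofReal_zero] at h2
        exact h2
      exact le_antisymm (ge_of_tendsto' hlim hle) bot_le
    rw [← compl_compl {ω | ∀ K : ℕ, ∃ n : ℕ, ((K : ℝ) + 1) * n < SR T g n ω}] at hnull
    have hae : ∀ᵐ ω ∂μ, ω ∈ {ω | ∀ K : ℕ, ∃ n : ℕ, ((K : ℝ) + 1) * n < SR T g n ω}ᶜ := hnull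
    filter_upwards [hae] with ω hω
    simp only [Set.mem_compl_iff, Set.mem_ofPred_eq, not_forall, not_exists, not_lt] at hω
    obtain ⟨K, hK⟩ := hω
    exact ⟨(K : ℝ) + 1, by positivity, hK⟩
  · intro g hg hgi hg0 hgb
    have hsum : ∑' k : ℕ, μ {ω | ∃ n : ℕ, (1 / 2 : ℝ) ^ k * n < SR T (g k) n ω} ≠ ∞ := by
      have hle : ∀ k : ℕ, μ {ω | ∃ n : ℕ, (1 / 2 : ℝ) ^ k * n < SR T (g k) n ω} ≤
          ENNReal.ofReal ((1 / 2 : ℝ) ^ k) := by
        intro k
        refine (hH μ T rev hT (g k) (hg k) (hgi k) (hg0 k) ((1 / 2 : ℝ) ^ k) (by positivity)).trans ?_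
        refine ENNReal.ofReal_le_ofReal ?_
        rw [div_le_iff₀ (by positivity)]
        refine (hgb k).trans (le_of_eq ?_)
        rw [← mul_pow]
        norm_num
      refine ne_top_of_le_ne_top ?_ (ENNReal.tsum_le_tsum hle)
      have hs : Summable (fun k : ℕ => (1 / 2 : ℝ) ^ k) := summable_geometric_two
      rw [← ENNReal.ofReal_tsum_of_nonneg (fun k => by positivity) hs]
      exact ENNReal.ofReal_ne_top
    have hae := ae_eventually_notMem hsum
    filter_upwards [hae] with ω hω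
    filter_upwards [hω] with k hk
    intro n
    by_contra hn
    exact hk ⟨n, not_le.1 hn⟩

end Pool.Agent.Helper67.PC.HBC
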