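import Pool.Agent.Helper51.PP.Spec

/-!
# Swarm PC (MP_b460e8_pr), part HOPF: Hopf's maximal inequality
-/

set_option autoImplicit false
set_option linter.unusedSectionVars false

namespace Pool.Agent.Helper67.PC.HOPF

open MeasureTheory ProbabilityTheory Filter Topology
open scoped ENNReal BigOperators
open Pool.Agent.Helper51.PP

variable {Ω E : Type} [MeasurableSpace Ω] [Fintype E] [Nonempty E]

theorem PR_meas {μ : Measure Ω} {T : Ω → E → Ω} {rev : E → E} (hT : MPS μ T rev) {f : Ω → ℝ}
    (hf : Measurable f) : Measurable (PR T f) := by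
  unfold PR
  refine Measurable.const_mul ?_ _
  refine Finset.measurable_sum _ fun e _ => ?_
  exact hf.comp (hT.mp e).measurable

theorem PR_int {μ : Measure Ω} {T : Ω → E → Ω} {rev : E → E} (hT : MPS μ T rev) {f : Ω → ℝ}
    (hi : Integrable f μ) : Integrable (PR T f) μ := by
  unfold PR
  refine Integrable.const_mul ?_ _
  refine integrable_finsetSum _ fun e _ => ?_
  exact (hT.mp e).integrable_comp_of_integrable hi

theorem PR_integral {μ : Measure Ω} {T : Ω → E → Ω} {rev : E → E} (hT : MPS μ T rev) {f : Ω → ℝ}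
    (hf : Measurable f) (hi : Integrable f μ) : ∫ ω, PR T f ω ∂μ = ∫ ω, f ω ∂μ := by
  unfold PR
  have hi' : ∀ e ∈ (Finset.univ : Finset E), Integrable (fun ω => f (T ω e)) μ :=
    fun e _ => (hT.mp e).integrable_comp_of_integrable hi
  rw [integral_const_mul, integral_finsetSum _ hi']
  have h : ∀ e ∈ (Finset.univ : Finset E), ∫ ω, f (T ω e) ∂μ = ∫ ω, f ω ∂μ := by
    intro e _
    have h1 := integral_map (hT.mp e).measurable.aemeasurable
      (f := f) (by rw [(hT.mp e).map_eq]; exact hf.aestronglyMeasurable)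
    rw [(hT.mp e).map_eq] at h1
    exact h1.symm
  rw [Finset.sum_congr rfl h, Finset.sum_const, Finset.card_univ, nsmul_eq_mul]
  have : (Fintype.card E : ℝ) ≠ 0 := by
    exact_mod_cast Fintype.card_ne_zero
  field_simp

theorem PR_mono (T : Ω → E → Ω) {f g : Ω → ℝ} (h : ∀ ω, f ω ≤ g ω) (ω : Ω) :
    PR T f ω ≤ PR T g ω := by
  unfold PR
  exact mul_le_mul_of_nonneg_left (Finset.sum_le_sum fun e _ => h _) (by positivity)

/-- the truncated maximal functions -/
noncomputable def MM (T : Ω → E → Ω) (h : Ω → ℝ) : ℕ → Ω → ℝ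
  | 0 => fun _ => 0
  | n + 1 => fun ω => max 0 (h ω + PR T (MM T h n) ω)

theorem MM_nonneg (T : Ω → E → Ω) (h : Ω → ℝ) (n : ℕ) (ω : Ω) : 0 ≤ MM T h n ω := by
  cases n with
  | zero => simp [MM]
  | succ n => simp [MM]

theorem MM_mono (T : Ω → E → Ω) (h : Ω → ℝ) (n : ℕ) (ω : Ω) : MM T h n ω ≤ MM T h (n + 1) ω := by
  induction n generalizing ω with
  | zero => simp [MM]
  | succ n ih =>
    show max 0 (h ω + PR T (MM T h n) ω) ≤ max 0 (h ω + PR T (MM T h (n + 1)) ω)
    refine max_le_max le_rfl ?_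
    have := PR_mono T ih ω
    linarith

theorem SR_succ (T : Ω → E → Ω) (g : Ω → ℝ) (n : ℕ) (ω : Ω) :
    SR T g (n + 1) ω = g ω + PR T (fun ω => SR T g n ω) ω := by
  unfold SR
  rw [Finset.sum_range_succ']
  have h0 : PRn T g 0 ω = g ω := rfl
  rw [h0, add_comm]
  congr 1
  have h1 : ∀ j ∈ Finset.range n, PRn T g (j + 1) ω = (Fintype.card E : ℝ)⁻¹ *
      ∑ e, PRn T g j (T ω e) := fun j _ => rfl
  rw [Finset.sum_congr rfl h1, ← Finset.mul_sum, Finset.sum_comm]
  rfl

theorem SR_le (T : Ω → E → Ω) (g : Ω → ℝ) (lam : ℝ) (n : ℕ) (ω : Ω) :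
    SR T g n ω - lam * n ≤ MM T (fun ω => g ω - lam) n ω := by
  induction n generalizing ω with
  | zero => simp [SR, MM]
  | succ n ih =>
    rw [SR_succ]
    refine le_trans ?_ (le_max_right _ _)
    have h1 := PR_mono T ih ω
    have h2 : PR T (fun ω => SR T g n ω - lam * n) ω = PR T (fun ω => SR T g n ω) ω - lam * n := by
      unfold PR
      rw [Finset.sum_sub_distrib, Finset.sum_const, Finset.card_univ, nsmul_eq_mul, mul_sub]
      have : (Fintype.card E : ℝ) ≠ 0 := by
        exact_mod_cast Fintype.card_ne_zero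
      field_simp
    rw [h2] at h1
    push_cast
    linarith

theorem MM_meas {μ : Measure Ω} {T : Ω → E → Ω} {rev : E → E} (hT : MPS μ T rev) {h : Ω → ℝ}
    (hh : Measurable h) (n : ℕ) : Measurable (MM T h n) := by
  induction n with
  | zero => exact measurable_const
  | succ n ih => exact measurable_const.max (hh.add (PR_meas hT ih))

theorem MM_int {μ : Measure Ω} {T : Ω → E → Ω} {rev : E → E} (hT : MPS μ T rev) {h : Ω → ℝ}
    (hh : Integrable h μ) (n : ℕ) : Integrable (MM T h n) μ := by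
  induction n with
  | zero => exact integrable_zero _ _ _
  | succ n ih => exact (integrable_zero _ _ _).sup (hh.add (PR_int hT ih))

theorem key (T : Ω → E → Ω) (h : Ω → ℝ) (n : ℕ) (ω : Ω) :
    MM T h n ω - PR T (MM T h n) ω ≤ Set.indicator {ω | 0 < MM T h n ω} h ω := by
  have hP : 0 ≤ PR T (MM T h n) ω := by
    unfold PR
    exact mul_nonneg (by positivity) (Finset.sum_nonneg fun e _ => MM_nonneg T h n _)
  by_cases hpos : 0 < MM T h n ω
  · rw [Set.indicator_of_mem (by exact hpos)]
    cases n with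
    | zero => simp [MM] at hpos
    | succ n =>
      have h1 : MM T h (n + 1) ω = max 0 (h ω + PR T (MM T h n) ω) := rfl
      have h2 : MM T h (n + 1) ω ≤ h ω + PR T (MM T h n) ω := by
        rw [h1] at hpos ⊢
        rcases lt_max_iff.1 hpos with h3 | h3
        · exact absurd h3 (lt_irrefl _)
        · exact max_le h3.le le_rfl
      have h3 := PR_mono T (MM_mono T h n) ω
      linarith
  · rw [Set.indicator_of_notMem (by exact hpos)]
    push Not at hpos
    linarith

theorem main : S_HOPF := by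
  intro Ω E _ _ _ μ _ T rev hT g hg hgi hg0 lam hlam
  set h : Ω → ℝ := fun ω => g ω - lam with hh
  have hhm : Measurable h := hg.sub measurable_const
  have hhi : Integrable h μ := hgi.sub (integrable_const _)
  set A : ℕ → Set Ω := fun n => {ω | 0 < MM T h n ω} with hA
  have hAm : ∀ n, MeasurableSet (A n) := fun n => measurableSet_lt measurable_const (MM_meas hT hhm n)
  have hmono : Monotone A := monotone_nat_of_le_succ fun n ω hω =>
    lt_of_lt_of_le (show 0 < MM T h n ω from hω) (MM_mono T h n ω)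
  have hb : ∀ n, μ (A n) ≤ ENNReal.ofReal ((∫ ω, g ω ∂μ) / lam) := by
    intro n
    have h1 : ∫ ω, (MM T h n ω - PR T (MM T h n) ω) ∂μ = 0 := by
      rw [integral_sub (MM_int hT hhi n) (PR_int hT (MM_int hT hhi n)),
        PR_integral hT (MM_meas hT hhm n) (MM_int hT hhi n), sub_self]
    have h2 : ∫ ω, (MM T h n ω - PR T (MM T h n) ω) ∂μ ≤ ∫ ω, (A n).indicator h ω ∂μ :=
      integral_mono ((MM_int hT hhi n).sub (PR_int hT (MM_int hT hhi n)))
        (hhi.indicator (hAm n)) (fun ω => key T h n ω)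
    rw [h1, integral_indicator (hAm n)] at h2
    have h3 : ∫ ω in A n, h ω ∂μ = ∫ ω in A n, g ω ∂μ - lam * μ.real (A n) := by
      rw [hh, integral_sub hgi.integrableOn (integrable_const _).integrableOn, setIntegral_const,
        smul_eq_mul, mul_comm]
    have h4 : ∫ ω in A n, g ω ∂μ ≤ ∫ ω, g ω ∂μ :=
      setIntegral_le_integral hgi (Eventually.of_forall hg0)
    have h5 : μ.real (A n) ≤ (∫ ω, g ω ∂μ) / lam := by
      rw [le_div_iff₀ hlam]
      linarith
    rw [← ofReal_measureReal]
    exact ENNReal.ofReal_le_ofReal h5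
  have hsub : {ω | ∃ n : ℕ, lam * n < SR T g n ω} ⊆ ⋃ n, A n := by
    rintro ω ⟨n, hn⟩
    refine Set.mem_iUnion.2 ⟨n, ?_⟩
    have := SR_le T g lam n ω
    show 0 < MM T h n ω
    linarith
  refine (measure_mono hsub).trans ?_
  rw [hmono.measure_iUnion]
  exact iSup_le hb

end Pool.Agent.Helper67.PC.HOPF
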